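import Pool.Agent.Helper57.SL.Stmts

/-!
# Row CMS of sheet SL: the combination
-/

set_option autoImplicit false

namespace Pool.Agent.Helper83.SL

open MeasureTheory Set Filter Topology
open Pool.Agent.Helper57.QZ (Pr tor circ aa Zy Wy Sy Vy Ky pt lin Good zA Pz)
open Pool.Agent.Helper57.SI (fej fc gc Kk zz ww)
open Pool.Agent.Helper57.SL

theorem cms_re (θ : ℝ) (W : ℂ) : |(Complex.exp (-((θ : ℂ) * Complex.I)) * W).re| ≤ ‖W‖ := by
  refine (Complex.abs_re_le_norm _).trans ?_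
  rw [norm_mul, Complex.norm_exp]
  simp

theorem cms_meas (T H B : ℝ) (hT : 0 < T) (hH : 3 ≤ H) :
    T * H ^ (-(B + 1)) + T * H ^ (-(B + 1)) ≤ T * H ^ (-B) := by
  have hH0 : 0 < H := by linarith
  have e1 : H ^ (-(B + 1)) = H ^ (-B) * H⁻¹ := by
    rw [neg_add, Real.rpow_add hH0, Real.rpow_neg_one]
  have e2 : 0 < H ^ (-B) := Real.rpow_pos_of_pos hH0 _
  have e3 : H⁻¹ ≤ 1 / 2 := by
    rw [inv_eq_one_div]
    exact one_div_le_one_div_of_le (by norm_num) (by linarith)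
  have e4 : T * H ^ (-B) * H⁻¹ ≤ T * H ^ (-B) * (1 / 2) :=
    mul_le_mul_of_nonneg_left e3 (by positivity)
  rw [e1]
  linarith

theorem S2_mono (σ : ℝ) {a b : ℕ} (h : a ≤ b) : S2 σ a ≤ S2 σ b := by
  unfold S2
  apply Finset.sum_le_sum_of_subset_of_nonneg
  · intro p hp
    rw [Nat.mem_primesBelow] at hp ⊢
    exact ⟨by omega, hp.2⟩
  · intro p hp _
    rw [Nat.mem_primesBelow] at hp
    have h1 : (1 : ℝ) ≤ (p : ℝ) := by exact_mod_cast hp.2.one_lt.le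
    exact mul_nonneg (Real.log_nonneg h1) (Real.rpow_nonneg (by linarith) _)

theorem F1_nonneg (σ : ℝ) (y x : ℕ) (φ : Pr y → ℝ) : 0 ≤ F1 σ y x φ := by
  unfold F1
  apply Finset.sum_nonneg
  intro p _
  split_ifs
  · exact mul_nonneg (Real.rpow_nonneg (Nat.cast_nonneg _) _)
      (sub_nonneg.mpr (Real.cos_le_one _))
  · exact le_refl 0

theorem cms_pow (T c : ℝ) (hc : 0 < c) (hT : Real.exp (Real.exp (1 / c)) ≤ T) :
    Real.exp (Real.log T / Real.log (Real.log T)) ≤ T ^ c := by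
  have hT0 : 0 < T := (Real.exp_pos _).trans_le hT
  have h1 : Real.exp (1 / c) ≤ Real.log T := (Real.le_log_iff_exp_le hT0).mpr hT
  have hl0 : 0 < Real.log T := (Real.exp_pos _).trans_le h1
  have h2 : 1 / c ≤ Real.log (Real.log T) := (Real.le_log_iff_exp_le hl0).mpr h1
  have hc1 : 0 < 1 / c := by positivity
  have h3 : 0 < Real.log (Real.log T) := hc1.trans_le h2
  rw [Real.rpow_def_of_pos hT0]
  apply Real.exp_le_exp.mpr
  rw [div_le_iff₀ h3]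
  have h4 : 1 ≤ c * Real.log (Real.log T) := by
    have := mul_le_mul_of_nonneg_left h2 hc.le
    rwa [mul_one_div_cancel hc.ne'] at this
  nlinarith

theorem st_CMS (h1 : ST_MTS) (h2 : ST_LOWS) (h3 : ST_UPS) (h4 : ST_DES) (h5 : ST_DWS)
    (h6 : ST_APS) : ST_CMS := by
  intro δ hδ B hB
  obtain ⟨C1, hC1, hD⟩ := h4
  obtain ⟨C2, hC2, hW⟩ := h5
  have hδ0 := hδ.1
  have hδ1 := hδ.2
  obtain ⟨η, hδη⟩ : ∃ η : ℝ, δ = 400 * η := ⟨δ / 400, by ring⟩
  have hη0 : 0 < η := by linarith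
  have hη1 : η < 1 / 400 := by linarith
  have hηI : η ∈ Ioo (0:ℝ) 1 := ⟨hη0, by linarith⟩
  obtain ⟨A, hA, hAP0⟩ := h6 (η / 2) ⟨by linarith, by linarith⟩
  obtain ⟨c, hc, Ta, hTa, hAP⟩ := hAP0 (B + 1) (by linarith)
  obtain ⟨Hb, Tb, hHb, hTb, hUP⟩ := h3 η hηI A hA (B + 1) (by linarith)
  obtain ⟨Hc, hHc, hlow⟩ := h2 η hηI
  obtain ⟨C, hC⟩ : ∃ C : ℝ, C = 1 + C2 + (2 * C1 / η) ^ 2 := ⟨_, rfl⟩
  have hCC : 0 ≤ (2 * C1 / η) ^ 2 := sq_nonneg _
  obtain ⟨κ, hκ, Ha, hHa3, hHa⟩ := h1 η hηI C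
  refine ⟨κ, hκ, max Ha (max Hb Hc), max Ta (max Tb (Real.exp (Real.exp (1 / c)))), ?_, ?_,
    fun T hT H hH hHT => ?_⟩
  · exact hHa3.trans (le_max_left _ _)
  · exact hTa.trans (le_max_left _ _)
  have hH1 : Ha ≤ H := (le_max_left _ _).trans hH
  have hH2 : Hb ≤ H := ((le_max_left _ _).trans (le_max_right _ _)).trans hH
  have hH3 : Hc ≤ H := ((le_max_right _ _).trans (le_max_right _ _)).trans hH
  have hT1 : Ta ≤ T := (le_max_left _ _).trans hT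
  have hT2 : Tb ≤ T := ((le_max_left _ _).trans (le_max_right _ _)).trans hT
  have hT3 : Real.exp (Real.exp (1 / c)) ≤ T :=
    ((le_max_right _ _).trans (le_max_right _ _)).trans hT
  have hTpos : 0 < T := by linarith
  have hH3' : 3 ≤ H := hHa3.trans hH1
  have hHc' : H ≤ T ^ c := hHT.trans (cms_pow T c hc.1 hT3)
  obtain ⟨m1, m2, m3, m4, m5, m6, m7⟩ := hHa H hH1
  refine ⟨m1, fun σ hσ => ?_⟩
  obtain ⟨s1, s2, s3, s4, s5⟩ := m7 σ hσ
  obtain ⟨L, hLdef⟩ : ∃ L : ℝ, Real.log (Real.log H) = L := ⟨_, rfl⟩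
  have hL1 : 1 ≤ L := by
    have a1 : 1 ≤ Real.log H := by
      rw [Real.le_log_iff_exp_le (by linarith)]
      have := Real.exp_one_lt_d9
      linarith
    have a2 : 0 ≤ L := by rw [← hLdef]; exact Real.log_nonneg a1
    by_contra hlt
    rw [not_le] at hlt
    have a3 : Real.log L ≤ 0 := Real.log_nonpos a2 hlt.le
    have a4 : l3 H = Real.log L := by rw [← hLdef]; rfl
    rw [a4] at m1
    linarith
  have hσI : σ ∈ Icc (3 / 4 : ℝ) 1 := ⟨s1, hσ.2⟩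
  have hl3 : 0 < l3 H := by linarith
  have hσU : σ ∈ Icc (1 - 1 / l3 H) 1 := by
    refine ⟨le_trans ?_ hσ.1, hσ.2⟩
    have : κ / l3 H ≤ 1 / l3 H := div_le_div_of_nonneg_right hκ.2.le hl3.le
    linarith
  rw [hLdef] at m6 s3 s5 ⊢
  obtain ⟨hYy, hUP'⟩ := hUP T hT2 H hH2 hHT
  obtain ⟨Eb, b1, b2, b3⟩ := hUP' σ hσU
  obtain ⟨Ea, a1, a2, a3⟩ := hAP T hT1 H hH3' hHc' σ hσI
  obtain ⟨y, hy⟩ : ∃ y : ℕ, zA A T = y := ⟨_, rfl⟩
  obtain ⟨z, hz⟩ : ∃ z : ℕ, zz H = z := ⟨_, rfl⟩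
  obtain ⟨Y, hY⟩ : ∃ Y : ℕ, YY H = Y := ⟨_, rfl⟩
  obtain ⟨N, hN⟩ : ∃ N : ℕ, ⌊Real.log H⌋₊ = N := ⟨_, rfl⟩
  have hlow' := hlow H hH3 σ hσI
  rw [hLdef] at b3 hlow'
  rw [hz, hY, hy] at b3
  rw [hy] at a3
  rw [hy, hY] at hYy
  rw [hz] at hlow' m2 m3 s2 s3 s4 s5
  rw [hY] at m4 m5 m6 s4 s5
  rw [hN] at m3 m4 ⊢
  have n1 : S2 σ z ≤ S2 σ N := S2_mono σ m3
  have n2 : S2 σ N ≤ S2 σ Y := S2_mono σ m4
  obtain ⟨P, hP⟩ : ∃ P : ℝ, S2 σ z = P := ⟨_, rfl⟩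
  obtain ⟨Q, hQ⟩ : ∃ Q : ℝ, S2 σ N = Q := ⟨_, rfl⟩
  obtain ⟨W, hWd⟩ : ∃ W : ℝ, S2 σ Y = W := ⟨_, rfl⟩
  obtain ⟨e, he⟩ : ∃ e : ℝ, η * (P / L) = e := ⟨_, rfl⟩
  rw [hP] at s2 s3 s4 s5 hlow' b3 n1
  rw [hQ] at n1 n2 ⊢
  rw [hWd] at s4 n2
  rw [he] at s5 hlow' b3
  have hLpos : 0 < L := by linarith
  have hP0 : 0 < P := by linarith
  have hPL : 1 / 2 ≤ P / L := by
    rw [le_div_iff₀ hLpos]; exact s3
  have he1 : η / 2 ≤ e := by
    rw [← he]
    nlinarith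
  have he0 : 0 < e := by linarith
  have heL : e * L = η * P := by
    rw [← he]
    field_simp
  have heP : e ≤ η * P := by
    rw [← heL]
    nlinarith
  have hCP : C2 ≤ η * P := by linarith
  have hz1 : 1 ≤ z := by
    have : (1:ℝ) ≤ (z : ℝ) := by linarith
    exact_mod_cast this
  have hzpos : (0:ℝ) < (z : ℝ) := by exact_mod_cast hz1
  have hzY : z ≤ Y := m3.trans m4
  have hQL : e ≤ η * (Q / L) := by
    rw [← he]
    exact mul_le_mul_of_nonneg_left (div_le_div_of_nonneg_right n1 hLpos.le) hη0.le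
  have hQ0 : 0 < Q := by linarith
  have key : ∀ t : ℝ, ∀ u ∈ Icc T (2 * T), u ∉ Ea → u ∉ Eb → t ∈ Icc u (u + H) →
      riemannZeta (pt σ t) ≠ 0 ∧
      |Real.log ‖riemannZeta (pt σ t)‖ - Real.log ‖Zy y σ (lin y t)‖| ≤ e ∧
      ‖deriv riemannZeta (pt σ t) / riemannZeta (pt σ t) - Wy y σ (lin y t)‖ ≤ e ∧
      ‖ts 0 σ y Y (lin y t)‖ ≤ e ∧ ‖ts 1 σ y Y (lin y t)‖ ≤ e := by
    intro t u hu hua hub ht
    obtain ⟨-, q⟩ := a3 u hu hua
    obtain ⟨q1, q2, q3⟩ := q t ht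
    exact ⟨q1, q2.trans he1, q3.trans he1, b3 u hu hub t ht 0 (by norm_num),
      b3 u hu hub t ht 1 (le_refl _)⟩
  refine ⟨s3.trans n1, S1 σ z + Ky y σ, Real.exp (S1 σ Y + Ky y σ + 2 * e), Ea ∪ Eb,
    union_subset a1 b1, ?_, fun u hu huE => ?_⟩
  · have x2 := measureReal_union_le (μ := (volume : Measure ℝ)) Ea Eb
    have x3 := cms_meas T H B hTpos hH3'
    linarith only [x2, x3, a2, b2]
  simp only [mem_union, not_or] at huE
  obtain ⟨hua, hub⟩ := huE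
  refine ⟨(a3 u hu hua).1, fun t ht => ?_, ?_, fun θ => ?_⟩
  · obtain ⟨k1, k2, k3, k4, k5⟩ := key t u hu hua hub ht
    obtain ⟨d1, -⟩ := hD y z Y t σ e hσI hz1 hzY hYy k4
    obtain ⟨w1, w2, -⟩ := hW y z Y t σ e hσI hz1 hzY hYy k5
    have hF := F1_nonneg σ y Y (lin y t)
    obtain ⟨k2a, k2b⟩ := abs_le.1 k2
    rw [hWd] at w1 w2
    refine ⟨k1, ?_, ?_, ?_⟩
    · have hpos : 0 < ‖riemannZeta (pt σ t)‖ := norm_pos_iff.2 k1
      rw [← Real.exp_log hpos]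
      apply Real.exp_le_exp.2
      linarith only [k2b, d1, hF]
    · have c1 : ‖deriv riemannZeta (pt σ t) / riemannZeta (pt σ t)‖ ≤
          ‖deriv riemannZeta (pt σ t) / riemannZeta (pt σ t) - Wy y σ (lin y t)‖ +
            ‖Wy y σ (lin y t)‖ := by
        have := norm_add_le (deriv riemannZeta (pt σ t) / riemannZeta (pt σ t) -
          Wy y σ (lin y t)) (Wy y σ (lin y t))
        rwa [sub_add_cancel] at this
      have c2 : δ * Q = 400 * (η * Q) := by rw [hδη]; ring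
      have c3 : η * P ≤ η * Q := mul_le_mul_of_nonneg_left n1 hη0.le
      have c4 : (1 + η) * P = P + η * P := by ring
      have c5 : (1 + δ) * Q = Q + δ * Q := by ring
      have c6 : 0 < η * Q := mul_pos hη0 hQ0
      rw [c4] at s4
      rw [c5]
      linarith only [c1, k3, w1, s4, c2, c3, hCP, heP, n1, c6]
    · intro hM
      have f1 : F1 σ y Y (lin y t) ≤ 3 * e + δ / 4 * (Q / L) := by
        linarith only [hM, k2b, d1, s5]
      have f2 : Real.log Y * F1 σ y Y (lin y t) ≤ 2 * L * (3 * e + δ / 4 * (Q / L)) :=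
        mul_le_mul m6 f1 hF (by linarith)
      have f3 : 2 * L * (3 * e + δ / 4 * (Q / L)) = 6 * (e * L) + δ / 2 * Q := by
        field_simp
        ring
      rw [f3, heL] at f2
      have c1 : ‖Wy y σ (lin y t)‖ ≤
          ‖deriv riemannZeta (pt σ t) / riemannZeta (pt σ t) - Wy y σ (lin y t)‖ +
            ‖deriv riemannZeta (pt σ t) / riemannZeta (pt σ t)‖ := by
        have := norm_sub_le (deriv riemannZeta (pt σ t) / riemannZeta (pt σ t))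
          (deriv riemannZeta (pt σ t) / riemannZeta (pt σ t) - Wy y σ (lin y t))
        rw [sub_sub_cancel] at this
        linarith only [this]
      have c2 : δ * Q = 400 * (η * Q) := by rw [hδη]; ring
      have c3 : η * P ≤ η * Q := mul_le_mul_of_nonneg_left n1 hη0.le
      have c5 : (1 - δ) * Q = Q - δ * Q := by ring
      have c7 : δ / 2 * Q = (δ * Q) / 2 := by ring
      have c6 : 0 < η * Q := mul_pos hη0 hQ0
      rw [c5]
      rw [c7] at f2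
      linarith only [c1, k3, w2, f2, c2, c3, hCP, heP, n2, c6]
  · obtain ⟨t, ht, f1, -⟩ := hlow' u 0
    refine ⟨t, ht, ?_⟩
    obtain ⟨k1, k2, k3, k4, k5⟩ := key t u hu hua hub ht
    obtain ⟨-, d2⟩ := hD y z Y t σ e hσI hz1 hzY hYy k4
    have d3 := d2 f1
    obtain ⟨k2a, k2b⟩ := abs_le.1 k2
    have l2 : C1 / Real.sqrt z ≤ e := by
      have x1 : 2 * C1 / η ≤ Real.sqrt z := by
        apply Real.le_sqrt_of_sq_le
        linarith only [m2, hC, hC2]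
      have x2 : 0 < Real.sqrt (z : ℝ) := Real.sqrt_pos.2 hzpos
      refine le_trans ?_ he1
      rw [div_le_iff₀ x2]
      rw [div_le_iff₀ hη0] at x1
      linarith only [x1]
    have c2 : δ / 8 * (Q / L) = 50 * (η * (Q / L)) := by rw [hδη]; ring
    rw [c2]
    linarith only [d3, k2a, l2, s5, hQL, he0]
  · obtain ⟨t, ht, -, f2⟩ := hlow' u (θ + Real.pi)
    refine ⟨t, ht, ?_⟩
    obtain ⟨k1, k2, k3, k4, k5⟩ := key t u hu hua hub ht
    obtain ⟨-, -, w3⟩ := hW y z Y t σ e hσI hz1 hzY hYy k5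
    have w4 := w3 θ
    rw [hWd, hP] at w4
    have x3 := cms_re θ (deriv riemannZeta (pt σ t) / riemannZeta (pt σ t) - Wy y σ (lin y t))
    have x4 := (abs_le.1 (x3.trans k3)).1
    rw [mul_sub, Complex.sub_re] at x4
    have c2 : δ * Q = 400 * (η * Q) := by rw [hδη]; ring
    have c3 : η * P ≤ η * Q := mul_le_mul_of_nonneg_left n1 hη0.le
    have c4 : (1 + η) * P = P + η * P := by ring
    have c5 : (1 - δ) * Q = Q - δ * Q := by ring
    have c6 : 0 < η * Q := mul_pos hη0 hQ0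
    rw [c4] at s4
    rw [c5]
    linarith only [w4, x4, s4, c2, c3, hCP, heP, n1, n2, c6, f2]

end Pool.Agent.Helper83.SL
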